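import Mathlib

/-! # Vectors of vertex sets of a graph with at most `12` vertices, as tries -/

set_option autoImplicit false

namespace Run7.h299.SNP

open Finset

/-- the masks of the neighbourhoods; vertices `0, 1` and `2, …, 5` against `6, …, 11`: the bipartite
graph of the Ferrers shape `(6, 5, 2, 2, 2, 2)`. -/
def adjm : ℕ → ℕ
  | 11 => 0b111111
  | 10 => 0b11111
  | 9 => 0b11
  | 8 => 0b11
  | 7 => 0b11
  | 6 => 0b11
  | 0 => 0b111111000000
  | 1 => 0b111111000000
  | 2 => 0b110000000000
  | 3 => 0b110000000000
  | 4 => 0b110000000000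
  | 5 => 0b100000000000
  | _ => 0

/-- adjacency -/
def Ad (u v : Fin 12) : Prop := (adjm u.val).testBit v.val = true

instance (u v : Fin 12) : Decidable (Ad u v) := inferInstanceAs (Decidable (_ = true))

theorem Ad_symm : ∀ u v, Ad u v → Ad v u := by decide

theorem Ad_irrefl : ∀ u, ¬ Ad u u := by decide

/-- stable sets -/
def St (S : Finset (Fin 12)) : Prop := ∀ u ∈ S, ∀ v ∈ S, ¬ Ad u v

instance (S : Finset (Fin 12)) : Decidable (St S) := inferInstanceAs (Decidable (∀ u ∈ S, _))

/-- the number of the sequences of disjoint stable sets of given sizes with union `H` -/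
def CL : List ℕ → Finset (Fin 12) → ℕ
  | [], H => if H = ∅ then 1 else 0
  | a :: l, H => ∑ S ∈ H.powerset with (St S ∧ S.card = a), CL l (H \ S)

/-- tries -/
inductive T
  | z : T
  | lf (c : ℕ) : T
  | nd (l r : T) : T

/-- a node, `z` if it is empty -/
def T.mk : T → T → T
  | .z, .z => .z
  | l, r => .nd l r

/-- adding a multiple of the empty set -/
def T.addc (a : ℕ) : T → T
  | .z => .lf a
  | .lf b => .lf (Nat.add a b)
  | .nd l r => .nd (T.addc a l) r

/-- sum -/
def T.add : T → T → T
  | .z, t => t
  | .lf a, t => t.addc a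
  | .nd l r, .z => .nd l r
  | .nd l r, .lf b => .nd (T.addc b l) r
  | .nd l r, .nd l' r' => .nd (T.add l l') (T.add r r')

/-- the vertex with a given number -/
def vt (i : ℕ) : Fin 12 := Fin.ofNat 12 i

/-- the value of a functional on a vector -/
def ev : ℕ → T → (Finset (Fin 12) → ℕ) → ℕ
  | _, .z, _ => 0
  | _, .lf c, g => c * g ∅
  | n, .nd l r, g => ev (n - 1) l g + ev (n - 1) r fun H => g (insert (vt (n - 1)) H)

theorem ev_mk (n : ℕ) (l r : T) (g : Finset (Fin 12) → ℕ) : ev n (T.mk l r) g = ev n (.nd l r) g := by
  cases l <;> cases r <;> simp [T.mk, ev]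

theorem ev_addc (n a : ℕ) (t : T) (g : Finset (Fin 12) → ℕ) :
    ev n (t.addc a) g = a * g ∅ + ev n t g := by
  induction t generalizing n g with
  | z => simp [T.addc, ev]
  | lf b => simp [T.addc, ev, add_mul]
  | nd l r ih _ =>
    simp only [T.addc, ev, ih]
    ring

theorem ev_add (n : ℕ) (t t' : T) (g : Finset (Fin 12) → ℕ) :
    ev n (t.add t') g = ev n t g + ev n t' g := by
  induction t generalizing n t' g with
  | z => simp [T.add, ev]
  | lf a => simp [T.add, ev_addc, ev]
  | nd l r ih1 ih2 =>
    cases t' with
    | z => simp [T.add, ev]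
    | lf b =>
      simp only [T.add, ev, ev_addc]
      ring
    | nd l' r' =>
      simp only [T.add, ev, ih1, ih2]
      ring

/-- the depth is at most `n` -/
def W : ℕ → T → Prop
  | _, .z => True
  | _, .lf _ => True
  | n, .nd l r => 1 ≤ n ∧ W (n - 1) l ∧ W (n - 1) r

theorem W_mk {n : ℕ} {l r : T} (h : W n (.nd l r)) : W n (T.mk l r) := by
  cases l <;> cases r <;> simp_all [T.mk, W]

theorem W_addc (n a : ℕ) (t : T) : W n t → W n (t.addc a) := by
  induction t generalizing n with
  | z => exact fun _ => trivial
  | lf b => exact fun _ => trivial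
  | nd l r ih _ => exact fun h => ⟨h.1, ih _ h.2.1, h.2.2⟩

theorem W_add (n : ℕ) (t t' : T) : W n t → W n t' → W n (t.add t') := by
  induction t generalizing n t' with
  | z => exact fun _ h => h
  | lf a => exact fun _ h => W_addc _ _ _ h
  | nd l r ih1 ih2 =>
    cases t' with
    | z => exact fun h _ => h
    | lf b => exact fun h _ => ⟨h.1, W_addc _ _ _ h.2.1, h.2.2⟩
    | nd l' r' => exact fun h h' => ⟨h.1, ih1 _ _ h.2.1 h'.2.1, ih2 _ _ h.2.2 h'.2.2⟩

/-- removing the stable sets with `a` elements and without elements in the mask `F` -/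
def op : ℕ → T → ℕ → ℕ → T
  | _, t, 0, _ => t
  | _, .z, _ + 1, _ => .z
  | _, .lf _, _ + 1, _ => .z
  | n, .nd l r, a + 1, F => T.mk
      ((op (n - 1) l (a + 1) F).add
        (match F.testBit (n - 1) with
          | true => .z
          | false => op (n - 1) r a (F ||| adjm (n - 1))))
      (op (n - 1) r (a + 1) F)

/-- the sets with all elements below `n` -/
def Bl (n : ℕ) (H : Finset (Fin 12)) : Prop := ∀ v ∈ H, v.val < n

theorem ev_congr (n : ℕ) (hn : n ≤ 12) (t : T) (ht : W n t) (g g' : Finset (Fin 12) → ℕ)
    (h : ∀ H, Bl n H → g H = g' H) : ev n t g = ev n t g' := by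
  induction t generalizing n g g' with
  | z => rfl
  | lf c => rw [ev, ev, h ∅ (by simp [Bl])]
  | nd l r ihl ihr =>
    obtain ⟨h1, h2, h3⟩ := ht
    rw [ev, ev, ihl (n - 1) (by omega) h2 g g' fun H hH => h H fun v hv => by
      have := hH v hv
      omega]
    rw [ihr (n - 1) (by omega) h3 _ (fun H => g' (insert (vt (n - 1)) H)) fun H hH => h _ ?_]
    intro v hv
    rcases mem_insert.1 hv with rfl | hv
    · show (n - 1) % 12 < n
      rw [Nat.mod_eq_of_lt (by omega)]
      omega
    · have := hH v hv
      omega

/-- the sets that may be removed -/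
def Pm (F : ℕ) (S : Finset (Fin 12)) : Prop := St S ∧ ∀ v ∈ S, F.testBit v.val = false

instance (F : ℕ) (S : Finset (Fin 12)) : Decidable (Pm F S) :=
  inferInstanceAs (Decidable (_ ∧ ∀ v ∈ S, _))

/-- the functional of the removal -/
def Rm (a F : ℕ) (g : Finset (Fin 12) → ℕ) (H : Finset (Fin 12)) : ℕ :=
  ∑ S ∈ H.powerset with (Pm F S ∧ S.card = a), g (H \ S)

theorem Rm_zero (F : ℕ) (g : Finset (Fin 12) → ℕ) (H : Finset (Fin 12)) : Rm 0 F g H = g H := by
  unfold Rm
  rw [Finset.sum_eq_single ∅]
  · simp
  · intro S hS hne
    rw [mem_filter, card_eq_zero] at hS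
    exact absurd hS.2.2 hne
  · intro h
    exact absurd (mem_filter.2 ⟨empty_mem_powerset H, ⟨by simp [St], by simp⟩, card_empty⟩) h

theorem Rm_empty (a F : ℕ) (g : Finset (Fin 12) → ℕ) : Rm (a + 1) F g ∅ = 0 := by
  unfold Rm
  refine Finset.sum_eq_zero fun S hS => ?_
  rw [mem_filter, mem_powerset, subset_empty] at hS
  rw [hS.1, card_empty] at hS
  omega

theorem Rm_insert (a F n : ℕ) (hn : n < 12) (g : Finset (Fin 12) → ℕ) (H : Finset (Fin 12))
    (hH : Bl n H) : Rm (a + 1) F g (insert (vt n) H) =
      Rm (a + 1) F (fun H => g (insert (vt n) H)) H +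
        if F.testBit n = true then 0 else Rm a (F ||| adjm n) g H := by
  have hv : (vt n).val = n := Nat.mod_eq_of_lt hn
  have hnm : vt n ∉ H := fun h => by
    have := hH _ h
    omega
  unfold Rm
  rw [Finset.sum_filter, Finset.sum_powerset_insert hnm, ← Finset.sum_filter]
  congr 1
  · refine Finset.sum_congr rfl fun S hS => ?_
    rw [mem_filter, mem_powerset] at hS
    rw [insert_sdiff_of_notMem _ fun h => hnm (hS.1 h)]
  · split_ifs with hF
    · refine Finset.sum_eq_zero fun S hS => ?_
      rw [if_neg]
      rintro ⟨⟨h1, h2⟩, h3⟩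
      have := h2 (vt n) (mem_insert_self _ _)
      rw [hv, hF] at this
      cases this
    · rw [Finset.sum_filter]
      refine Finset.sum_congr rfl fun S hS => ?_
      rw [mem_powerset] at hS
      have hnS : vt n ∉ S := fun h => hnm (hS h)
      have hiff : (Pm F (insert (vt n) S) ∧ (insert (vt n) S).card = a + 1) ↔
          (Pm (F ||| adjm n) S ∧ S.card = a) := by
        rw [card_insert_of_notMem hnS]
        have hc : S.card + 1 = a + 1 ↔ S.card = a := by omega
        rw [hc]
        refine and_congr_left fun _ => ?_
        constructor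
        · rintro ⟨h1, h2⟩
          refine ⟨fun u hu v hv => h1 u (mem_insert_of_mem hu) v (mem_insert_of_mem hv),
            fun v hv' => ?_⟩
          rw [Nat.testBit_or, h2 v (mem_insert_of_mem hv')]
          have h3 := h1 (vt n) (mem_insert_self _ _) v (mem_insert_of_mem hv')
          unfold Ad at h3
          rw [hv] at h3
          simpa using h3
        · rintro ⟨h1, h2⟩
          have h3 : ∀ v ∈ S, ¬ Ad (vt n) v := by
            intro v hv' h
            have := h2 v hv'
            rw [Nat.testBit_or, Bool.or_eq_false_iff] at this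
            unfold Ad at h
            rw [hv, this.2] at h
            cases h
          refine ⟨?_, ?_⟩
          · intro u hu v hv'
            rcases mem_insert.1 hu with rfl | hu
            · rcases mem_insert.1 hv' with rfl | hv'
              · exact Ad_irrefl _
              · exact h3 v hv'
            · rcases mem_insert.1 hv' with rfl | hv'
              · exact fun h => h3 u hu (Ad_symm _ _ h)
              · exact h1 u hu v hv'
          · intro v hv'
            rcases mem_insert.1 hv' with rfl | hv'
            · rw [hv]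
              simpa using hF
            · have := h2 v hv'
              rw [Nat.testBit_or, Bool.or_eq_false_iff] at this
              exact this.1
      rw [if_congr hiff rfl rfl]
      congr 1
      congr 1
      ext v
      rw [mem_sdiff, mem_sdiff, mem_insert, mem_insert]
      constructor
      · rintro ⟨h1 | h1, h2⟩
        · exact absurd (Or.inl h1) h2
        · exact ⟨h1, fun h => h2 (Or.inr h)⟩
      · rintro ⟨h1, h2⟩
        refine ⟨Or.inr h1, ?_⟩
        rintro (rfl | h3)
        · exact hnm h1
        · exact h2 h3

theorem op_spec (t : T) : ∀ (n : ℕ) (_ : n ≤ 12) (_ : W n t) (a F : ℕ),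
    W n (op n t a F) ∧ ∀ g, ev n (op n t a F) g = ev n t (Rm a F g) := by
  induction t with
  | z =>
    intro n hn ht a F
    cases a with
    | zero => exact ⟨trivial, fun g => rfl⟩
    | succ a => exact ⟨trivial, fun g => rfl⟩
  | lf c =>
    intro n hn ht a F
    cases a with
    | zero =>
      refine ⟨trivial, fun g => ?_⟩
      rw [op, ev, ev, Rm_zero]
    | succ a =>
      refine ⟨trivial, fun g => ?_⟩
      rw [op, ev, ev, Rm_empty, mul_zero]
  | nd l r ihl ihr =>
    intro n hn ht a F
    cases a with
    | zero =>
      refine ⟨ht, fun g => ?_⟩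
      rw [op]
      exact ev_congr n hn _ ht _ _ fun H _ => (Rm_zero _ _ _).symm
    | succ a =>
      obtain ⟨h1, h2, h3⟩ := ht
      obtain ⟨l1, l2⟩ := ihl (n - 1) (by omega) h2 (a + 1) F
      obtain ⟨r1, r2⟩ := ihr (n - 1) (by omega) h3 (a + 1) F
      obtain ⟨s1, s2⟩ := ihr (n - 1) (by omega) h3 a (F ||| adjm (n - 1))
      rw [op]
      constructor
      · refine W_mk ⟨h1, W_add _ _ _ l1 ?_, r1⟩
        split
        · trivial
        · exact s1
      · intro g
        rw [ev_mk, ev, ev_add, l2, r2, ev]
        have h4 : ev (n - 1) (match F.testBit (n - 1) with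
            | true => .z
            | false => op (n - 1) r a (F ||| adjm (n - 1))) g =
            ev (n - 1) r (fun H => if F.testBit (n - 1) = true then 0 else
              Rm a (F ||| adjm (n - 1)) g H) := by
          cases hF : F.testBit (n - 1) with
          | true =>
            simp only [if_true]
            rw [ev]
            symm
            have : ∀ (m : ℕ) (t : T), ev m t (fun _ => 0) = 0 := by
              intro m t
              induction t generalizing m with
              | z => rfl
              | lf c => simp [ev]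
              | nd l r h1 h2 => rw [ev, h1, h2]
            exact this _ _
          | false =>
            simp only [Bool.false_eq_true, if_false]
            exact s2 g
        rw [h4]
        have h5 : ev (n - 1) r (fun H => Rm (a + 1) F g (insert (vt (n - 1)) H)) =
            ev (n - 1) r (fun H => Rm (a + 1) F (fun H => g (insert (vt (n - 1)) H)) H +
              if F.testBit (n - 1) = true then 0 else Rm a (F ||| adjm (n - 1)) g H) :=
          ev_congr _ (by omega) _ h3 _ _ fun H hH => Rm_insert a F (n - 1) (by omega) g H hH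
        rw [h5]
        have h6 : ∀ (m : ℕ) (t : T) (g g' : Finset (Fin 12) → ℕ),
            ev m t (fun H => g H + g' H) = ev m t g + ev m t g' := by
          intro m t
          induction t generalizing m with
          | z => intro g g'; rfl
          | lf c => intro g g'; simp only [ev]; ring
          | nd l r h1 h2 => intro g g'; simp only [ev]; rw [h1, h2]; ring
        rw [h6]
        ring

theorem op_CL (t : T) (ht : W 12 t) (a : ℕ) (l : List ℕ) :
    ev 12 (op 12 t a 0) (CL l) = ev 12 t (CL (a :: l)) := by
  rw [(op_spec t 12 le_rfl ht a 0).2]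
  congr 1
  funext H
  rw [CL, Rm]
  refine Finset.sum_congr (Finset.filter_congr fun S _ => ?_) fun _ _ => rfl
  unfold Pm
  simp

/-- the total number of the sets with `m` elements -/
def cnt : T → ℕ → ℕ
  | .z, _ => 0
  | .lf c, 0 => c
  | .lf _, _ + 1 => 0
  | .nd l _, 0 => cnt l 0
  | .nd l r, m + 1 => Nat.add (cnt l (m + 1)) (cnt r m)

theorem St_singleton (v : Fin 12) : St {v} := by
  intro a ha b hb
  rw [mem_singleton] at ha hb
  rw [ha, hb]
  exact Ad_irrefl v

theorem CL_ones (m : ℕ) (H : Finset (Fin 12)) :
    CL (List.replicate m 1) H = if H.card = m then m.factorial else 0 := by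
  induction m generalizing H with
  | zero =>
    rw [List.replicate_zero, CL, Nat.factorial_zero]
    simp only [card_eq_zero]
  | succ m ih =>
    rw [List.replicate_succ, CL]
    simp_rw [ih]
    have h1 : H.powerset.filter (fun S => St S ∧ S.card = 1) = H.image fun v => {v} := by
      ext S
      rw [mem_filter, mem_powerset, mem_image]
      constructor
      · rintro ⟨h1, h2, h3⟩
        obtain ⟨v, rfl⟩ := card_eq_one.1 h3
        exact ⟨v, singleton_subset_iff.1 h1, rfl⟩
      · rintro ⟨v, hv, rfl⟩
        exact ⟨singleton_subset_iff.2 hv, St_singleton v, card_singleton v⟩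
    rw [h1, Finset.sum_image (fun a _ b _ h => singleton_injective h)]
    by_cases h2 : H.card = m + 1
    · rw [if_pos h2]
      have h3 : ∀ v ∈ H, (if (H \ {v}).card = m then m.factorial else 0) = m.factorial := by
        intro v hv
        rw [if_pos]
        rw [card_sdiff_of_subset (singleton_subset_iff.2 hv), card_singleton]
        omega
      rw [Finset.sum_congr rfl h3, Finset.sum_const, h2, Nat.factorial_succ]
      simp
    · rw [if_neg h2]
      refine Finset.sum_eq_zero fun v hv => ?_
      rw [if_neg]
      rw [card_sdiff_of_subset (singleton_subset_iff.2 hv), card_singleton]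
      have := card_pos.2 ⟨v, hv⟩
      omega

theorem ev_cnt (t : T) : ∀ (n : ℕ) (_ : n ≤ 12) (_ : W n t) (m k : ℕ),
    ev n t (fun H => if H.card = m then k else 0) = k * cnt t m := by
  induction t with
  | z => intro n _ _ m k; simp [ev, cnt]
  | lf c =>
    intro n _ _ m k
    cases m with
    | zero => simp [ev, cnt, mul_comm]
    | succ m => simp [ev, cnt]
  | nd l r ihl ihr =>
    intro n hn ht m k
    obtain ⟨h1, h2, h3⟩ := ht
    rw [ev, ihl (n - 1) (by omega) h2]
    have hv : (vt (n - 1)).val = n - 1 := Nat.mod_eq_of_lt (by omega)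
    have h4 : ev (n - 1) r (fun H => if (insert (vt (n - 1)) H).card = m then k else 0) =
        ev (n - 1) r (fun H => if H.card + 1 = m then k else 0) := by
      refine ev_congr _ (by omega) _ h3 _ _ fun H hH => ?_
      rw [card_insert_of_notMem]
      intro h
      have := hH _ h
      omega
    rw [h4]
    cases m with
    | zero =>
      have h5 : (fun H : Finset (Fin 12) => if H.card + 1 = 0 then k else 0) =
          fun H => if H.card = 0 then 0 else 0 := by
        funext H
        simp
      rw [h5, ihr (n - 1) (by omega) h3, cnt]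
      simp
    | succ m =>
      have h5 : (fun H : Finset (Fin 12) => if H.card + 1 = m + 1 then k else 0) =
          fun H => if H.card = m then k else 0 := by
        funext H
        simp
      rw [h5, ihr (n - 1) (by omega) h3, cnt, Nat.add_eq]
      ring

theorem ev_ones (t : T) (ht : W 12 t) (m : ℕ) :
    ev 12 t (CL (List.replicate m 1)) = m.factorial * cnt t m := by
  rw [← ev_cnt t 12 le_rfl ht]
  congr 1
  funext H
  exact CL_ones m H

/-- the vector of the full set -/
def full : ℕ → T
  | 0 => .lf 1
  | n + 1 => .nd .z (full n)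

theorem W_full (n : ℕ) : W n (full n) := by
  induction n with
  | zero => trivial
  | succ n ih => exact ⟨by omega, trivial, ih⟩

theorem ev_full (n : ℕ) (hn : n ≤ 12) (g : Finset (Fin 12) → ℕ) :
    ev n (full n) g = g (univ.filter fun v => v.val < n) := by
  induction n generalizing g with
  | zero => simp [full, ev]
  | succ n ih =>
    rw [full, ev, ev, Nat.add_sub_cancel, ih (by omega), zero_add]
    congr 1
    ext v
    have hv : (vt n).val = n := Nat.mod_eq_of_lt (by omega)
    simp only [mem_insert, mem_filter, mem_univ, true_and, Fin.ext_iff, hv]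
    omega

end Run7.h299.SNP
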