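import Mathlib
import Pool.Agent.R850.FG.SSYT

/-! # Kostka numbers do not depend on the order of the content -/

set_option autoImplicit false

namespace Run7.h299.SNP

open Finset Pool.Agent.R850.FG

/-- the row lengths of the toggled diagram -/
def togf (μ ν ρ : YoungDiagram) : ℕ → ℕ
  | 0 => μ.rowLen 0 + max (μ.rowLen 1) (ν.rowLen 0) - ρ.rowLen 0
  | i + 1 => min (μ.rowLen (i + 1)) (ν.rowLen i) + max (μ.rowLen (i + 2)) (ν.rowLen (i + 1)) -
      ρ.rowLen (i + 1)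

/-- the toggled diagram -/
noncomputable def tog (μ ν ρ : YoungDiagram) : YoungDiagram := mk (togf μ ν ρ)

theorem togf_succ (μ ν ρ : YoungDiagram) (i : ℕ) : togf μ ν ρ (i + 1) =
    min (μ.rowLen (i + 1)) (ν.rowLen i) + max (μ.rowLen (i + 2)) (ν.rowLen (i + 1)) -
      ρ.rowLen (i + 1) := rfl

theorem togf_bounds {μ ν ρ : YoungDiagram} (h1 : IL ν ρ) (h2 : IL ρ μ) (i : ℕ) :
    μ.rowLen (i + 1) ≤ togf μ ν ρ i ∧ ν.rowLen i ≤ togf μ ν ρ i ∧ togf μ ν ρ i ≤ μ.rowLen i := by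
  cases i with
  | zero =>
    have a : ρ.rowLen 1 ≤ ν.rowLen 0 ∧ ν.rowLen 0 ≤ ρ.rowLen 0 := h1 0
    have b : μ.rowLen 1 ≤ ρ.rowLen 0 ∧ ρ.rowLen 0 ≤ μ.rowLen 0 := h2 0
    simp only [togf, zero_add]
    omega
  | succ i =>
    have a := h1 i
    have a' : ρ.rowLen (i + 2) ≤ ν.rowLen (i + 1) ∧ ν.rowLen (i + 1) ≤ ρ.rowLen (i + 1) :=
      h1 (i + 1)
    have b := h2 i
    have b' : μ.rowLen (i + 2) ≤ ρ.rowLen (i + 1) ∧ ρ.rowLen (i + 1) ≤ μ.rowLen (i + 1) :=
      h2 (i + 1)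
    rw [togf_succ]
    show μ.rowLen (i + 2) ≤ _ ∧ _ ∧ _
    omega

theorem togf_le {μ ν ρ : YoungDiagram} (h1 : IL ν ρ) (h2 : IL ρ μ) (i : ℕ) :
    togf μ ν ρ (i + 1) ≤ ν.rowLen i := by
  have a := h1 i
  have a' : ρ.rowLen (i + 2) ≤ ν.rowLen (i + 1) ∧ ν.rowLen (i + 1) ≤ ρ.rowLen (i + 1) :=
    h1 (i + 1)
  have b := h2 i
  have b' : μ.rowLen (i + 2) ≤ ρ.rowLen (i + 1) ∧ ρ.rowLen (i + 1) ≤ μ.rowLen (i + 1) :=
    h2 (i + 1)
  rw [togf_succ]
  omega

theorem tog_rowLen {μ ν ρ : YoungDiagram} (h1 : IL ν ρ) (h2 : IL ρ μ) (i : ℕ) :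
    (tog μ ν ρ).rowLen i = togf μ ν ρ i := by
  obtain ⟨b, hb⟩ := exists_zero μ
  refine mk_rowLen _ ?_ b ?_ i
  · refine antitone_nat_of_succ_le fun i => ?_
    have h3 := togf_le h1 h2 i
    have h4 := togf_bounds h1 h2 i
    omega
  · have h4 := togf_bounds h1 h2 b
    omega

theorem tog_IL {μ ν ρ : YoungDiagram} (h1 : IL ν ρ) (h2 : IL ρ μ) :
    IL ν (tog μ ν ρ) ∧ IL (tog μ ν ρ) μ := by
  constructor
  · intro i
    rw [tog_rowLen h1 h2, tog_rowLen h1 h2]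
    exact ⟨togf_le h1 h2 i, (togf_bounds h1 h2 i).2.1⟩
  · intro i
    rw [tog_rowLen h1 h2]
    exact ⟨(togf_bounds h1 h2 i).1, (togf_bounds h1 h2 i).2.2⟩

theorem tog_tog {μ ν ρ : YoungDiagram} (h1 : IL ν ρ) (h2 : IL ρ μ) :
    tog μ ν (tog μ ν ρ) = ρ := by
  obtain ⟨h3, h4⟩ := tog_IL h1 h2
  apply ext_rowLen
  intro i
  rw [tog_rowLen h3 h4]
  cases i with
  | zero =>
    simp only [togf]
    rw [tog_rowLen h1 h2]
    have a := h1 0
    have b := h2 0
    simp only [togf]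
    omega
  | succ i =>
    rw [togf_succ, tog_rowLen h1 h2, togf_succ]
    have a := h1 i
    have a' := h1 (i + 1)
    have b := h2 i
    have b' := h2 (i + 1)
    omega

theorem tog_card {μ ν ρ : YoungDiagram} (h1 : IL ν ρ) (h2 : IL ρ μ) :
    (tog μ ν ρ).cells.card + ρ.cells.card = μ.cells.card + ν.cells.card := by
  obtain ⟨b1, hb1⟩ := exists_zero μ
  have e0 : ∀ c, b1 ≤ c → μ.rowLen c = 0 := fun c hc => rowLen_zero_mono μ hb1 hc
  have e0' : ∀ c, b1 ≤ c → ρ.rowLen c = 0 := fun c hc => by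
    have := (h2 c).2
    have := e0 c hc
    omega
  have e0'' : ∀ c, b1 ≤ c → ν.rowLen c = 0 := fun c hc => by
    have := (h1 c).2
    have := e0' c hc
    omega
  have e0t : ∀ c, b1 ≤ c → (tog μ ν ρ).rowLen c = 0 := fun c hc => by
    have := ((tog_IL h1 h2).2 c).2
    have := e0 c hc
    omega
  have e1 := card_eq_sum μ (b1 + 1) (e0 _ (by omega))
  have e2 := card_eq_sum ν b1 (e0'' _ (by omega))
  have e3 := card_eq_sum ρ (b1 + 1) (e0' _ (by omega))
  have e4 := card_eq_sum (tog μ ν ρ) (b1 + 1) (e0t _ (by omega))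
  rw [Finset.sum_range_succ'] at e1 e3 e4
  -- telescoping of the maxima
  have e6 : (∑ i ∈ range b1, max (μ.rowLen (i + 2)) (ν.rowLen (i + 1))) +
      max (μ.rowLen 1) (ν.rowLen 0) = ∑ i ∈ range b1, max (μ.rowLen (i + 1)) (ν.rowLen i) := by
    rw [← Finset.sum_range_succ' (fun i => max (μ.rowLen (i + 1)) (ν.rowLen i)),
      Finset.sum_range_succ, e0 (b1 + 1) (by omega), e0'' b1 le_rfl]
    simp
  have e7 : (∑ i ∈ range b1, max (μ.rowLen (i + 1)) (ν.rowLen i)) +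
      ∑ i ∈ range b1, min (μ.rowLen (i + 1)) (ν.rowLen i) =
      (∑ i ∈ range b1, μ.rowLen (i + 1)) + ∑ i ∈ range b1, ν.rowLen i := by
    rw [← Finset.sum_add_distrib, ← Finset.sum_add_distrib]
    exact Finset.sum_congr rfl fun i _ => by omega
  have e8 : (∑ i ∈ range b1, (tog μ ν ρ).rowLen (i + 1)) + ∑ i ∈ range b1, ρ.rowLen (i + 1) =
      (∑ i ∈ range b1, min (μ.rowLen (i + 1)) (ν.rowLen i)) +
        ∑ i ∈ range b1, max (μ.rowLen (i + 2)) (ν.rowLen (i + 1)) := by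
    rw [← Finset.sum_add_distrib, ← Finset.sum_add_distrib]
    refine Finset.sum_congr rfl fun i _ => ?_
    rw [tog_rowLen h1 h2, togf_succ]
    have a := h1 i
    have a' := h1 (i + 1)
    have b := h2 i
    have b' := h2 (i + 1)
    omega
  have e9 : (tog μ ν ρ).rowLen 0 + ρ.rowLen 0 = μ.rowLen 0 + max (μ.rowLen 1) (ν.rowLen 0) := by
    rw [tog_rowLen h1 h2]
    simp only [togf]
    have a := h1 0
    have b := h2 0
    omega
  omega

/-- adding horizontal strips commutes -/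
theorem U_comm (a b : ℤ) (f : YoungDiagram → ℤ) : U a (U b f) = U b (U a f) := by
  classical
  funext μ
  unfold U
  rw [Finset.sum_sigma', Finset.sum_sigma']
  refine Finset.sum_bij' (fun x _ => ⟨tog μ x.2 x.1, x.2⟩) (fun x _ => ⟨tog μ x.2 x.1, x.2⟩)
    ?_ ?_ ?_ ?_ ?_
  · rintro ⟨ρ, ν⟩ hx
    simp only [mem_sigma, mem_filter, mem_below] at hx ⊢
    obtain ⟨⟨h1, h2⟩, h3, h4⟩ := hx
    have h5 := tog_card h3 h1
    obtain ⟨h6, h7⟩ := tog_IL h3 h1
    refine ⟨⟨h7, by omega⟩, h6, by omega⟩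
  · rintro ⟨ρ, ν⟩ hx
    simp only [mem_sigma, mem_filter, mem_below] at hx ⊢
    obtain ⟨⟨h1, h2⟩, h3, h4⟩ := hx
    have h5 := tog_card h3 h1
    obtain ⟨h6, h7⟩ := tog_IL h3 h1
    refine ⟨⟨h7, by omega⟩, h6, by omega⟩
  · rintro ⟨ρ, ν⟩ hx
    simp only [mem_sigma, mem_filter, mem_below] at hx
    obtain ⟨⟨h1, h2⟩, h3, h4⟩ := hx
    simp only [tog_tog h3 h1]
  · rintro ⟨ρ, ν⟩ hx
    simp only [mem_sigma, mem_filter, mem_below] at hx
    obtain ⟨⟨h1, h2⟩, h3, h4⟩ := hx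
    simp only [tog_tog h3 h1]
  · rintro ⟨ρ, ν⟩ _
    rfl

theorem IL_refl_iff {ν μ : YoungDiagram} (h : IL ν μ) (hc : ν.cells.card = μ.cells.card) :
    ν = μ := by
  obtain ⟨b, hb⟩ := exists_zero μ
  have hb' : ν.rowLen b = 0 := Nat.le_zero.1 (hb ▸ (h b).2)
  rw [card_eq_sum μ b hb, card_eq_sum ν b hb'] at hc
  have h1 := (Finset.sum_eq_sum_iff_of_le fun i _ => (h i).2).1 hc
  apply ext_rowLen
  intro i
  by_cases hi : i < b
  · exact h1 i (mem_range.2 hi)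
  · rw [rowLen_zero_mono μ hb (not_lt.1 hi), rowLen_zero_mono ν hb' (not_lt.1 hi)]

theorem IL_refl (μ : YoungDiagram) : IL μ μ := fun i => ⟨μ.rowLen_anti i (i + 1) (by omega), le_rfl⟩

theorem U_zero (f : YoungDiagram → ℤ) : U 0 f = f := by
  classical
  funext μ
  unfold U
  rw [Finset.sum_eq_single μ]
  · intro ν hν hne
    rw [mem_filter, mem_below] at hν
    exact absurd (IL_refl_iff hν.1 (by omega)) hne
  · intro h
    exact absurd (mem_filter.2 ⟨mem_below.2 (IL_refl μ), by omega⟩) h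

/-- Kostka numbers, with the content as a list -/
noncomputable def KL : List ℕ → YoungDiagram → ℤ
  | [] => fun μ => open Classical in if μ = ⊥ then 1 else 0
  | a :: l => U a (KL l)

theorem KL_perm {l l' : List ℕ} (h : l.Perm l') : KL l = KL l' := by
  induction h with
  | nil => rfl
  | cons a _ ih => rw [KL, KL, ih]
  | swap a b l => rw [KL, KL, KL, KL, U_comm]
  | trans _ _ ih1 ih2 => rw [ih1, ih2]

theorem KL_zero_cons (l : List ℕ) : KL (0 :: l) = KL l := by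
  rw [KL]
  exact U_zero _

theorem KL_filter (l : List ℕ) : KL (l.filter (· ≠ 0)) = KL l := by
  induction l with
  | nil => rfl
  | cons a l ih =>
    by_cases h : a = 0
    · subst h
      rw [KL_zero_cons, ← ih]
      simp
    · rw [List.filter_cons_of_pos (by simpa using h), KL, KL, ih]

theorem KL_eq_zero (l : List ℕ) : ∀ μ : YoungDiagram, l.sum ≠ μ.cells.card → KL l μ = 0 := by
  classical
  induction l with
  | nil =>
    intro μ h
    rw [KL]
    refine if_neg ?_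
    rintro rfl
    exact h rfl
  | cons a l ih =>
    intro μ h
    rw [KL, U]
    refine Finset.sum_eq_zero fun ν hν => ih ν ?_
    rw [mem_filter] at hν
    rw [List.sum_cons] at h
    have := hν.2
    intro h2
    apply h
    rw [h2]
    omega

theorem KK_eq_KL (m : ℕ → ℕ) (N : ℕ) :
    KK (fun i => (m i : ℤ)) N = KL ((List.range N).reverse.map m) := by
  induction N with
  | zero => rfl
  | succ N ih =>
    rw [KK, ih, List.range_succ, List.reverse_append]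
    rfl

end Run7.h299.SNP
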