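import Mathlib
import Pool.Agent.Run7.h299.SNP.Sym

/-! # Removing horizontal strips from partitions given as lists -/

set_option autoImplicit false

namespace Run7.h299.SNP

open Finset Pool.Agent.R850.FG

/-- the diagram with a list of row lengths -/
noncomputable def dg (l : List ℕ) : YoungDiagram := mk fun i => l.getD i 0

/-- a new first row -/
noncomputable def consD (v : ℕ) (ν : YoungDiagram) : YoungDiagram :=
  mk fun i => match i with
    | 0 => v
    | i + 1 => ν.rowLen i

/-- without the first row -/
noncomputable def tl (μ : YoungDiagram) : YoungDiagram := mk fun i => μ.rowLen (i + 1)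

theorem tl_rowLen (μ : YoungDiagram) (i : ℕ) : (tl μ).rowLen i = μ.rowLen (i + 1) := by
  obtain ⟨b, hb⟩ := exists_zero μ
  exact mk_rowLen (fun i => μ.rowLen (i + 1)) (fun i j h => μ.rowLen_anti _ _ (by omega)) b
    (rowLen_zero_mono μ hb (by omega)) i

theorem consD_rowLen {v : ℕ} {ν : YoungDiagram} (h : ν.rowLen 0 ≤ v) (i : ℕ) :
    (consD v ν).rowLen i = match i with
      | 0 => v
      | i + 1 => ν.rowLen i := by
  obtain ⟨b, hb⟩ := exists_zero ν
  refine mk_rowLen _ ?_ (b + 1) hb i
  refine antitone_nat_of_succ_le fun i => ?_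
  cases i with
  | zero => exact h
  | succ i => exact ν.rowLen_anti _ _ (by omega)

theorem consD_rowLen_zero {v : ℕ} {ν : YoungDiagram} (h : ν.rowLen 0 ≤ v) :
    (consD v ν).rowLen 0 = v := consD_rowLen h 0

theorem consD_rowLen_succ {v : ℕ} {ν : YoungDiagram} (h : ν.rowLen 0 ≤ v) (i : ℕ) :
    (consD v ν).rowLen (i + 1) = ν.rowLen i := consD_rowLen h (i + 1)

theorem card_tl (μ : YoungDiagram) : μ.cells.card = μ.rowLen 0 + (tl μ).cells.card := by
  obtain ⟨b, hb⟩ := exists_zero μ
  rw [card_eq_sum μ (b + 1) (rowLen_zero_mono μ hb (by omega)), Finset.sum_range_succ', add_comm,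
    card_eq_sum (tl μ) b (by rw [tl_rowLen]; exact rowLen_zero_mono μ hb (by omega))]
  simp_rw [tl_rowLen]

theorem tl_consD {v : ℕ} {ν : YoungDiagram} (h : ν.rowLen 0 ≤ v) : tl (consD v ν) = ν := by
  apply ext_rowLen
  intro i
  rw [tl_rowLen, consD_rowLen_succ h]

theorem consD_tl (μ : YoungDiagram) : consD (μ.rowLen 0) (tl μ) = μ := by
  have h : (tl μ).rowLen 0 ≤ μ.rowLen 0 := by
    rw [tl_rowLen]
    exact μ.rowLen_anti _ _ (by omega)
  apply ext_rowLen
  intro i
  cases i with
  | zero => rw [consD_rowLen_zero h]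
  | succ i => rw [consD_rowLen_succ h, tl_rowLen]

theorem card_consD {v : ℕ} {ν : YoungDiagram} (h : ν.rowLen 0 ≤ v) :
    (consD v ν).cells.card = v + ν.cells.card := by
  rw [card_tl, consD_rowLen_zero h, tl_consD h]

theorem U_cons (a : ℤ) (f : YoungDiagram → ℤ) (μ : YoungDiagram) :
    U a f μ = ∑ j ∈ range (μ.rowLen 0 - μ.rowLen 1 + 1),
      U (a - j) (fun ν => f (consD (μ.rowLen 0 - j) ν)) (tl μ) := by
  classical
  have hμ := μ.rowLen_anti 0 1 (by omega)
  have hc := card_tl μ
  unfold U
  rw [Finset.sum_sigma']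
  refine Finset.sum_bij' (fun ν _ => ⟨μ.rowLen 0 - ν.rowLen 0, tl ν⟩)
    (fun x _ => consD (μ.rowLen 0 - x.1) x.2) ?_ ?_ ?_ ?_ ?_
  · intro ν hν
    rw [mem_filter, mem_below] at hν
    obtain ⟨h1, h2⟩ := hν
    have h3 : μ.rowLen 1 ≤ ν.rowLen 0 ∧ ν.rowLen 0 ≤ μ.rowLen 0 := h1 0
    have h4 := card_tl ν
    simp only [mem_sigma, mem_range, mem_filter, mem_below]
    refine ⟨by omega, fun i => ?_, by omega⟩
    rw [tl_rowLen, tl_rowLen, tl_rowLen]
    exact h1 (i + 1)
  · rintro ⟨j, ν⟩ hx
    simp only [mem_sigma, mem_range, mem_filter, mem_below] at hx ⊢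
    obtain ⟨h1, h2, h3⟩ := hx
    have h4 := h2 0
    rw [tl_rowLen, tl_rowLen] at h4
    have h4' : ν.rowLen 0 ≤ μ.rowLen 1 := h4.2
    have h5 : ν.rowLen 0 ≤ μ.rowLen 0 - j := by omega
    rw [card_consD h5]
    refine ⟨fun i => ?_, by omega⟩
    cases i with
    | zero =>
      rw [consD_rowLen_zero h5]
      show μ.rowLen 1 ≤ _ ∧ _
      omega
    | succ i =>
      rw [consD_rowLen_succ h5]
      have := h2 i
      rw [tl_rowLen, tl_rowLen] at this
      exact this
  · intro ν hν
    rw [mem_filter, mem_below] at hν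
    obtain ⟨h1, h2⟩ := hν
    have h3 : μ.rowLen 1 ≤ ν.rowLen 0 ∧ ν.rowLen 0 ≤ μ.rowLen 0 := h1 0
    have h4 : μ.rowLen 0 - (μ.rowLen 0 - ν.rowLen 0) = ν.rowLen 0 := by omega
    simp only [h4]
    exact consD_tl ν
  · rintro ⟨j, ν⟩ hx
    simp only [mem_sigma, mem_range, mem_filter, mem_below] at hx
    obtain ⟨h1, h2, h3⟩ := hx
    have h4 := h2 0
    rw [tl_rowLen, tl_rowLen] at h4
    have h4' : ν.rowLen 0 ≤ μ.rowLen 1 := h4.2
    have h5 : ν.rowLen 0 ≤ μ.rowLen 0 - j := by omega
    have h6 : μ.rowLen 0 - (μ.rowLen 0 - j) = j := by omega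
    simp only [consD_rowLen_zero h5, tl_consD h5, h6]
  · intro ν hν
    rw [mem_filter, mem_below] at hν
    obtain ⟨h1, h2⟩ := hν
    have h3 : μ.rowLen 1 ≤ ν.rowLen 0 ∧ ν.rowLen 0 ≤ μ.rowLen 0 := h1 0
    have h4 : μ.rowLen 0 - (μ.rowLen 0 - ν.rowLen 0) = ν.rowLen 0 := by omega
    simp only [h4]
    rw [consD_tl]

/-- partitions as lists -/
def Good (l : List ℕ) : Prop := l.Pairwise (· ≥ ·) ∧ ∀ x ∈ l, 0 < x

theorem getD_anti {l : List ℕ} (h : l.Pairwise (· ≥ ·)) : Antitone fun i => l.getD i 0 := by
  refine antitone_nat_of_succ_le fun i => ?_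
  by_cases hi : i + 1 < l.length
  · rw [List.getD_eq_getElem _ _ hi, List.getD_eq_getElem _ _ (by omega)]
    exact List.pairwise_iff_getElem.1 h i (i + 1) (by omega) hi (by omega)
  · rw [List.getD_eq_default _ _ (by omega)]
    omega

theorem dg_rowLen {l : List ℕ} (h : l.Pairwise (· ≥ ·)) (i : ℕ) :
    (dg l).rowLen i = l.getD i 0 :=
  mk_rowLen _ (getD_anti h) l.length (List.getD_eq_default _ _ le_rfl) i

theorem bot_rowLen (i : ℕ) : (⊥ : YoungDiagram).rowLen i = 0 := by
  by_contra h
  exact YoungDiagram.notMem_bot _ (YoungDiagram.mem_iff_lt_rowLen.2 (Nat.pos_of_ne_zero h))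

theorem dg_nil : dg [] = ⊥ := by
  apply ext_rowLen
  intro i
  rw [dg_rowLen List.Pairwise.nil, bot_rowLen]
  rfl

theorem consD_dg {t : List ℕ} (h : t.Pairwise (· ≥ ·)) (v : ℕ) : consD v (dg t) = dg (v :: t) := by
  unfold consD
  rw [dg]
  congr 1
  funext i
  cases i with
  | zero => rfl
  | succ i => exact dg_rowLen h i

theorem tl_dg {r : ℕ} {t : List ℕ} (h : (r :: t).Pairwise (· ≥ ·)) : tl (dg (r :: t)) = dg t := by
  apply ext_rowLen
  intro i
  rw [tl_rowLen, dg_rowLen h, dg_rowLen h.of_cons]
  rfl

theorem card_dg {l : List ℕ} (h : l.Pairwise (· ≥ ·)) : (dg l).cells.card = l.sum := by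
  induction l with
  | nil => rw [dg_nil]; rfl
  | cons r t ih =>
    rw [card_tl, tl_dg h, ih h.of_cons, dg_rowLen h, List.sum_cons]
    rfl

theorem below_bot' : below ⊥ = {⊥} := by
  ext ν
  rw [mem_below, mem_singleton]
  constructor
  · intro h
    apply ext_rowLen
    intro i
    have := (h i).2
    rw [bot_rowLen] at this ⊢
    omega
  · rintro rfl
    exact IL_refl _

theorem U_bot (a : ℤ) (f : YoungDiagram → ℤ) : U a f ⊥ = if a = 0 then f ⊥ else 0 := by
  unfold U
  rw [below_bot', Finset.sum_filter, Finset.sum_singleton]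
  split_ifs with h1 h2 h2
  · rfl
  · omega
  · omega
  · rfl

theorem U_neg (a : ℤ) (ha : a < 0) (f : YoungDiagram → ℤ) (μ : YoungDiagram) : U a f μ = 0 := by
  unfold U
  refine Finset.sum_eq_zero fun ν hν => ?_
  rw [mem_filter, mem_below] at hν
  have := hν.1.card_le
  omega

/-- the partitions that arise from a partition by removing a horizontal strip with `a` cells -/
def strips : List ℕ → ℕ → List (List ℕ)
  | [], a => if a = 0 then [[]] else []
  | [r], a => if a < r then [[r - a]] else if a = r then [[]] else []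
  | r :: s :: rs, a => (List.range (min a (r - s) + 1)).flatMap fun j =>
      (strips (s :: rs) (a - j)).map fun t => (r - j) :: t

theorem strips_good (l : List ℕ) : ∀ (a : ℕ) (t : List ℕ), Good l → t ∈ strips l a →
    Good t ∧ (∀ x ∈ t, x ≤ l.headD 0) ∧ t.sum + a = l.sum := by
  induction l with
  | nil =>
    intro a t _ ht
    rw [strips] at ht
    split_ifs at ht with h
    · rw [List.mem_singleton] at ht
      subst ht
      exact ⟨⟨List.Pairwise.nil, by simp⟩, by simp, by simp [h]⟩
    · simp at ht
  | cons r l ih =>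
    intro a t hl ht
    cases l with
    | nil =>
      rw [strips] at ht
      split_ifs at ht with h1 h2
      · rw [List.mem_singleton] at ht
        subst ht
        refine ⟨⟨List.pairwise_singleton _ _, ?_⟩, ?_, ?_⟩
        · intro x hx
          rw [List.mem_singleton] at hx
          omega
        · intro x hx
          rw [List.mem_singleton] at hx
          simp only [List.headD_cons]
          omega
        · simp only [List.sum_cons, List.sum_nil]
          omega
      · rw [List.mem_singleton] at ht
        subst ht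
        exact ⟨⟨List.Pairwise.nil, by simp⟩, by simp, by simp [h2]⟩
      · simp at ht
    | cons s rs =>
      rw [strips, List.mem_flatMap] at ht
      obtain ⟨j, hj, ht⟩ := ht
      rw [List.mem_map] at ht
      obtain ⟨t', ht', rfl⟩ := ht
      rw [List.mem_range] at hj
      have hl1 : Good (s :: rs) := ⟨hl.1.of_cons, fun x hx => hl.2 x (List.mem_cons_of_mem _ hx)⟩
      obtain ⟨g1, g2, g3⟩ := ih (a - j) t' hl1 ht'
      rw [List.headD_cons] at g2
      have hs : s ≤ r := List.rel_of_pairwise_cons hl.1 (List.mem_cons_self ..)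
      have hs0 : 0 < s := hl1.2 s (List.mem_cons_self ..)
      refine ⟨⟨?_, ?_⟩, ?_, ?_⟩
      · refine List.pairwise_cons.2 ⟨fun x hx => ?_, g1.1⟩
        have := g2 x hx
        omega
      · intro x hx
        rcases List.mem_cons.1 hx with rfl | hx
        · omega
        · exact g1.2 x hx
      · intro x hx
        rw [List.headD_cons]
        rcases List.mem_cons.1 hx with rfl | hx
        · omega
        · have := g2 x hx
          omega
      · rw [List.sum_cons] at g3 ⊢
        rw [List.sum_cons, List.sum_cons]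
        omega

theorem sum_range_list (n : ℕ) (g : ℕ → ℤ) :
    ∑ j ∈ range n, g j = ((List.range n).map g).sum := by
  induction n with
  | zero => rfl
  | succ n ih =>
    rw [Finset.sum_range_succ, List.range_succ, List.map_append, List.sum_append, ih]
    simp

theorem sum_flatMap_list {α β : Type} (l : List α) (f : α → List β) (g : β → ℤ) :
    ((l.flatMap f).map g).sum = (l.map fun x => ((f x).map g).sum).sum := by
  induction l with
  | nil => rfl
  | cons a l ih =>
    rw [List.flatMap_cons, List.map_append, List.sum_append, ih, List.map_cons, List.sum_cons]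

theorem U_dg (l : List ℕ) : ∀ (a : ℕ) (f : YoungDiagram → ℤ), Good l →
    U (a : ℤ) f (dg l) = ((strips l a).map fun t => f (dg t)).sum := by
  induction l with
  | nil =>
    intro a f _
    rw [dg_nil, U_bot, strips]
    by_cases h : a = 0
    · rw [if_pos (by omega), if_pos h]
      simp [dg_nil]
    · rw [if_neg (by omega), if_neg h]
      simp
  | cons r l ih =>
    intro a f hl
    cases l with
    | nil =>
      rw [U_cons, tl_dg hl.1, dg_nil, dg_rowLen hl.1, dg_rowLen hl.1]
      simp_rw [U_bot]
      simp only [List.getD_cons_zero, List.getD_cons_succ, List.getD_nil, Nat.sub_zero]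
      rw [strips]
      by_cases h1 : a ≤ r
      · rw [Finset.sum_eq_single a]
        · rw [if_pos (by omega)]
          by_cases h2 : a < r
          · rw [if_pos h2]
            simp only [List.map_cons, List.map_nil, List.sum_cons, List.sum_nil, add_zero]
            rw [← dg_nil, consD_dg List.Pairwise.nil]
          · have h3 : a = r := by omega
            rw [if_neg h2, if_pos h3]
            simp only [List.map_cons, List.map_nil, List.sum_cons, List.sum_nil, add_zero]
            rw [h3, Nat.sub_self]
            congr 1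
            rw [dg_nil]
            apply ext_rowLen
            intro i
            have h4 : (⊥ : YoungDiagram).rowLen 0 ≤ 0 := by rw [bot_rowLen]
            cases i with
            | zero => rw [consD_rowLen_zero h4, bot_rowLen]
            | succ i => rw [consD_rowLen_succ h4, bot_rowLen, bot_rowLen]
        · intro j _ hj
          rw [if_neg (by omega)]
        · intro h
          exact absurd (mem_range.2 (by omega)) h
      · rw [if_neg (by omega), if_neg (by omega)]
        simp only [List.map_nil, List.sum_nil]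
        refine Finset.sum_eq_zero fun j hj => ?_
        rw [mem_range] at hj
        rw [if_neg (by omega)]
    | cons s rs =>
      have hl1 : Good (s :: rs) := ⟨hl.1.of_cons, fun x hx => hl.2 x (List.mem_cons_of_mem _ hx)⟩
      rw [U_cons, tl_dg hl.1, dg_rowLen hl.1, dg_rowLen hl.1]
      simp only [List.getD_cons_zero, List.getD_cons_succ]
      rw [strips, sum_flatMap_list]
      have key : ∀ j ∈ range (r - s + 1), U ((a : ℤ) - j) (fun ν => f (consD (r - j) ν))
          (dg (s :: rs)) = if j ≤ a then
            ((strips (s :: rs) (a - j)).map fun t => f (dg ((r - j) :: t))).sum else 0 := by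
        intro j _
        split_ifs with h
        · have h1 : ((a : ℤ) - j) = ((a - j : ℕ) : ℤ) := by omega
          rw [h1, ih (a - j) _ hl1]
          congr 1
          refine List.map_congr_left fun t ht => ?_
          rw [consD_dg (strips_good _ _ _ hl1 ht).1.1]
        · exact U_neg _ (by omega) _ _
      rw [Finset.sum_congr rfl key, ← Finset.sum_filter]
      have h2 : (range (r - s + 1)).filter (fun j => j ≤ a) = range (min a (r - s) + 1) := by
        ext j
        rw [mem_filter, mem_range, mem_range]
        omega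
      rw [h2, sum_range_list]
      simp only [List.map_map, Function.comp_def]
end Run7.h299.SNP
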