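import Mathlib
import Pool.Agent.Run7.h299.SNP.Lst

/-! # Vectors of partitions -/

set_option autoImplicit false

namespace Run7.h299.SNP

open Finset Pool.Agent.R850.FG

/-- equality of lists -/
def eqL : List ℕ → List ℕ → Bool
  | [], [] => true
  | a :: l, b :: m => Nat.beq a b && eqL l m
  | _, _ => false

theorem eqL_iff (l m : List ℕ) : eqL l m = true ↔ l = m := by
  induction l generalizing m with
  | nil => cases m <;> simp [eqL]
  | cons a l ih => cases m <;> simp [eqL, ih]

/-- a vector of partitions -/
abbrev PV := List (List ℕ × ℕ)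

/-- the value of a functional on a vector -/
noncomputable def evS (L : PV) (f : YoungDiagram → ℤ) : ℤ :=
  (L.map fun p => (p.2 : ℤ) * f (dg p.1)).sum

/-- adding a multiple of a basis vector -/
def ins (k : List ℕ) (c : ℕ) : PV → PV
  | [] => [(k, c)]
  | p :: L => match eqL k p.1 with
    | true => (p.1, Nat.add c p.2) :: L
    | false => p :: ins k c L

theorem evS_nil (f : YoungDiagram → ℤ) : evS [] f = 0 := rfl

theorem evS_cons (p : List ℕ × ℕ) (L : PV) (f : YoungDiagram → ℤ) :
    evS (p :: L) f = (p.2 : ℤ) * f (dg p.1) + evS L f := by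
  simp [evS]

theorem evS_ins (k : List ℕ) (c : ℕ) (L : PV) (f : YoungDiagram → ℤ) :
    evS (ins k c L) f = (c : ℤ) * f (dg k) + evS L f := by
  induction L with
  | nil => simp [ins, evS]
  | cons p L ih =>
    rw [ins]
    split
    · rename_i h
      rw [eqL_iff] at h
      rw [evS_cons, evS_cons, h]
      simp only [Nat.add_eq]
      push_cast
      ring
    · rw [evS_cons, ih, evS_cons]
      ring

/-- all the lists are partitions -/
def AllGood (L : PV) : Prop := ∀ p ∈ L, Good p.1

theorem AllGood.ins {k : List ℕ} {c : ℕ} {L : PV} (hk : Good k) (hL : AllGood L) :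
    AllGood (ins k c L) := by
  induction L with
  | nil =>
    intro p hp
    rw [SNP.ins, List.mem_singleton] at hp
    rw [hp]
    exact hk
  | cons q L ih =>
    have hq : Good q.1 := hL q (List.mem_cons_self ..)
    have hL' : AllGood L := fun p hp => hL p (List.mem_cons_of_mem _ hp)
    rw [SNP.ins]
    split
    · intro p hp
      rcases List.mem_cons.1 hp with rfl | hp
      · exact hq
      · exact hL' p hp
    · intro p hp
      rcases List.mem_cons.1 hp with rfl | hp
      · exact hq
      · exact ih hL' p hp

/-- adding `c` times all the basis vectors of a list -/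
def insAll (c : ℕ) : List (List ℕ) → PV → PV
  | [], L => L
  | t :: ts, L => insAll c ts (ins t c L)

theorem evS_insAll (c : ℕ) (ts : List (List ℕ)) (L : PV) (f : YoungDiagram → ℤ) :
    evS (insAll c ts L) f = (c : ℤ) * (ts.map fun t => f (dg t)).sum + evS L f := by
  induction ts generalizing L with
  | nil => simp [insAll]
  | cons t ts ih =>
    rw [insAll, ih, evS_ins, List.map_cons, List.sum_cons]
    ring

theorem AllGood.insAll {c : ℕ} {ts : List (List ℕ)} {L : PV} (hk : ∀ t ∈ ts, Good t)
    (hL : AllGood L) : AllGood (insAll c ts L) := by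
  induction ts generalizing L with
  | nil => exact hL
  | cons t ts ih =>
    rw [SNP.insAll]
    exact ih (fun t' ht' => hk t' (List.mem_cons_of_mem _ ht'))
      (hL.ins (hk t (List.mem_cons_self ..)))

/-- removing horizontal strips with `a` cells from all the partitions of a vector -/
def stepS (a : ℕ) : PV → PV → PV
  | [], acc => acc
  | p :: L, acc => stepS a L (insAll p.2 (strips p.1 a) acc)

theorem evS_stepS (a : ℕ) (L acc : PV) (hL : AllGood L) (f : YoungDiagram → ℤ) :
    evS (stepS a L acc) f = evS L (U a f) + evS acc f := by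
  induction L generalizing acc with
  | nil => simp [stepS, evS_nil]
  | cons p L ih =>
    rw [stepS, ih _ (fun q hq => hL q (List.mem_cons_of_mem _ hq)), evS_insAll, evS_cons,
      U_dg _ _ _ (hL p (List.mem_cons_self ..))]
    ring

theorem AllGood.stepS {a : ℕ} {L acc : PV} (hL : AllGood L) (hacc : AllGood acc) :
    AllGood (stepS a L acc) := by
  induction L generalizing acc with
  | nil => exact hacc
  | cons p L ih =>
    rw [SNP.stepS]
    refine ih (fun q hq => hL q (List.mem_cons_of_mem _ hq)) (hacc.insAll fun t ht => ?_)
    exact (strips_good _ _ _ (hL p (List.mem_cons_self ..)) ht).1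

/-- the coefficient of the empty partition -/
def coef0 : PV → ℕ
  | [] => 0
  | p :: L => match p.1 with
    | [] => Nat.add p.2 (coef0 L)
    | _ :: _ => coef0 L

theorem dg_eq_bot {l : List ℕ} (h : Good l) : dg l = ⊥ ↔ l = [] := by
  constructor
  · intro h1
    have h2 := card_dg h.1
    rw [h1] at h2
    cases l with
    | nil => rfl
    | cons a l =>
      have h3 := h.2 a (List.mem_cons_self ..)
      have h4 : (⊥ : YoungDiagram).cells.card = 0 := rfl
      rw [List.sum_cons] at h2
      omega
  · rintro rfl
    exact dg_nil

theorem evS_coef0 {L : PV} (hL : AllGood L) : evS L (KL []) = coef0 L := by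
  classical
  induction L with
  | nil => rfl
  | cons p L ih =>
    rw [evS_cons, ih fun q hq => hL q (List.mem_cons_of_mem _ hq), coef0, KL]
    have hp := hL p (List.mem_cons_self ..)
    obtain ⟨l, c⟩ := p
    cases l with
    | nil =>
      have h : dg [] = ⊥ := (dg_eq_bot hp).2 rfl
      simp [h]
    | cons x l =>
      have h : ¬ dg (x :: l) = ⊥ := fun h => by simpa using (dg_eq_bot hp).1 h
      simp [h]

/-- the value at a tail of ones -/
def valS : ℕ → PV → ℕ
  | 0, L => coef0 L
  | n + 1, L => valS n (stepS 1 L [])

theorem allGood_nil : AllGood [] := fun p hp => by simp at hp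

theorem evS_valS (n : ℕ) (L : PV) (hL : AllGood L) :
    evS L (KL (List.replicate n 1)) = valS n L := by
  induction n generalizing L with
  | zero => exact evS_coef0 hL
  | succ n ih =>
    rw [List.replicate_succ, KL, valS, ← ih _ (hL.stepS allGood_nil), evS_stepS _ _ _ hL, evS_nil]
    simp

end Run7.h299.SNP
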