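import Mathlib
import Pool.Agent.Run7.h299.SNP.Vec
import Pool.Agent.Run7.h299.SNP.Tri

/-! # The check that the table holds the Schur coefficients -/

set_option autoImplicit false

namespace Run7.h299.SNP

open Finset Pool.Agent.R850.FG

/-- comparison of the values at all the partitions of `rem` with parts at most `last` -/
def chk : ℕ → T → PV → ℕ → ℕ → Bool
  | 0, _, _, _, _ => false
  | f + 1, t, L, rem, last =>
    Nat.beq (Nat.mul rem.factorial (cnt t rem)) (valS rem L) &&
      (List.range (Nat.min last rem + 1)).all fun a =>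
        Nat.ble a 1 || chk f (op 12 t a 0) (stepS a L []) (rem - a) a

/-- the table of the Schur coefficients -/
def cS : PV :=
  [([8, 2, 2], 2), ([8, 2, 1, 1], 2), ([8, 1, 1, 1, 1], 14), ([7, 3, 2], 6), ([7, 3, 1, 1], 6),
    ([7, 2, 2, 1], 22), ([7, 2, 1, 1, 1], 82), ([7, 1, 1, 1, 1, 1], 336), ([6, 6], 2),
    ([6, 5, 1], 11), ([6, 4, 2], 21), ([6, 4, 1, 1], 33), ([6, 3, 3], 24), ([6, 3, 2, 1], 90),
    ([6, 3, 1, 1, 1], 169), ([6, 2, 2, 2], 54), ([6, 2, 2, 1, 1], 321),
    ([6, 2, 1, 1, 1, 1], 1291), ([6, 1, 1, 1, 1, 1, 1], 3480), ([5, 5, 2], 5), ([5, 5, 1, 1], 69),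
    ([5, 4, 3], 29), ([5, 4, 2, 1], 194), ([5, 4, 1, 1, 1], 341), ([5, 3, 3, 1], 189),
    ([5, 3, 2, 2], 185), ([5, 3, 2, 1, 1], 1030), ([5, 3, 1, 1, 1, 1], 1979),
    ([5, 2, 2, 2, 1], 493), ([5, 2, 2, 1, 1, 1], 3293), ([5, 2, 1, 1, 1, 1, 1], 10660),
    ([5, 1, 1, 1, 1, 1, 1, 1], 20288), ([4, 4, 4], 28), ([4, 4, 3, 1], 113), ([4, 4, 2, 2], 227),
    ([4, 4, 2, 1, 1], 933), ([4, 4, 1, 1, 1, 1], 1272), ([4, 3, 3, 2], 125),
    ([4, 3, 3, 1, 1], 1101), ([4, 3, 2, 2, 1], 1436), ([4, 3, 2, 1, 1, 1], 6278),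
    ([4, 3, 1, 1, 1, 1, 1], 11420), ([4, 2, 2, 2, 2], 421), ([4, 2, 2, 2, 1, 1], 4207),
    ([4, 2, 2, 1, 1, 1, 1], 18248), ([4, 2, 1, 1, 1, 1, 1, 1], 49378),
    ([4, 1, 1, 1, 1, 1, 1, 1, 1], 71908), ([3, 3, 3, 3], 142), ([3, 3, 3, 2, 1], 549),
    ([3, 3, 3, 1, 1, 1], 3018), ([3, 3, 2, 2, 2], 1311), ([3, 3, 2, 2, 1, 1], 4625),
    ([3, 3, 2, 1, 1, 1, 1], 16104), ([3, 3, 1, 1, 1, 1, 1, 1], 29608), ([3, 2, 2, 2, 2, 1], 3319),
    ([3, 2, 2, 2, 1, 1, 1], 15824), ([3, 2, 2, 1, 1, 1, 1, 1], 52422),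
    ([3, 2, 1, 1, 1, 1, 1, 1, 1], 124822), ([3, 1, 1, 1, 1, 1, 1, 1, 1, 1], 154030),
    ([2, 2, 2, 2, 2, 2], 2612), ([2, 2, 2, 2, 2, 1, 1], 5348), ([2, 2, 2, 2, 1, 1, 1, 1], 21768),
    ([2, 2, 2, 1, 1, 1, 1, 1, 1], 63544), ([2, 2, 1, 1, 1, 1, 1, 1, 1, 1], 141902),
    ([2, 1, 1, 1, 1, 1, 1, 1, 1, 1, 1], 183128), ([1, 1, 1, 1, 1, 1, 1, 1, 1, 1, 1, 1], 92528)]

theorem chk_sound (f : ℕ) : ∀ (t : T) (L : PV) (rem last : ℕ), W 12 t → AllGood L →
    chk f t L rem last = true → ∀ l : List ℕ, l.Pairwise (· ≥ ·) → (∀ x ∈ l, 0 < x) →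
      (∀ x ∈ l, x ≤ last) → l.sum = rem → (ev 12 t (CL l) : ℤ) = evS L (KL l) := by
  induction f with
  | zero =>
    intro t L rem last _ _ h
    simp [chk] at h
  | succ f ih =>
    intro t L rem last ht hL h l hl1 hl2 hl3 hl4
    rw [chk, Bool.and_eq_true, Nat.beq_eq, List.all_eq_true] at h
    obtain ⟨h1, h2⟩ := h
    by_cases hone : ∀ x ∈ l, x = 1
    · have h3 : l = List.replicate rem 1 := by
        rw [List.eq_replicate_iff]
        refine ⟨?_, hone⟩
        have h4 := List.eq_replicate_iff.2 ⟨rfl, hone⟩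
        rw [h4, List.sum_replicate] at hl4
        simpa using hl4
      rw [h3, ev_ones _ ht, evS_valS _ _ hL, ← h1]
      rfl
    · cases l with
      | nil => exact absurd (fun x hx => by simp at hx) hone
      | cons a l =>
        have ha1 : 1 < a := by
          by_contra ha
          apply hone
          intro x hx
          have h5 := hl2 x hx
          rcases List.mem_cons.1 hx with rfl | hx
          · omega
          · have := List.rel_of_pairwise_cons hl1 hx
            omega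
        have ha2 : a ≤ last := hl3 a (List.mem_cons_self ..)
        rw [List.sum_cons] at hl4
        have h6 := h2 a (List.mem_range.2 (by
          have : Nat.min last rem = min last rem := rfl
          rw [this]
          omega))
        rw [Bool.or_eq_true] at h6
        rcases h6 with h6 | h6
        · rw [Nat.ble_eq] at h6
          omega
        · have h7 := ih _ _ _ _ (op_spec t 12 le_rfl ht a 0).1 (hL.stepS allGood_nil) h6 l
            hl1.of_cons (fun x hx => hl2 x (List.mem_cons_of_mem _ hx))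
            (fun x hx => List.rel_of_pairwise_cons hl1 hx) (by omega)
          rw [op_CL t ht, evS_stepS _ _ _ hL, evS_nil, add_zero] at h7
          exact h7

theorem chk_cS : chk 13 (full 12) cS 12 12 = true := by decide +kernel

/-- the lists of the table -/
def goodB : List ℕ → Bool
  | [] => true
  | [a] => Nat.blt 0 a
  | a :: b :: l => Nat.ble b a && goodB (b :: l)

theorem goodB_spec (l : List ℕ) (h : goodB l = true) : Good l := by
  induction l with
  | nil => exact ⟨List.Pairwise.nil, by simp⟩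
  | cons a l ih =>
    cases l with
    | nil =>
      rw [goodB] at h
      refine ⟨List.pairwise_singleton _ _, ?_⟩
      intro x hx
      rw [List.mem_singleton] at hx
      rw [hx]
      simpa using h
    | cons b l =>
      rw [goodB, Bool.and_eq_true, Nat.ble_eq] at h
      obtain ⟨h1, h2⟩ := h
      obtain ⟨h3, h4⟩ := ih h2
      have h5 := h4 b (List.mem_cons_self ..)
      refine ⟨List.pairwise_cons.2 ⟨fun x hx => ?_, h3⟩, fun x hx => ?_⟩
      · rcases List.mem_cons.1 hx with rfl | hx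
        · exact h1
        · have := List.rel_of_pairwise_cons h3 hx
          omega
      · rcases List.mem_cons.1 hx with rfl | hx
        · omega
        · exact h4 x hx

theorem good_cS : AllGood cS := by
  have h : (cS.all fun p => goodB p.1) = true := by decide +kernel
  intro p hp
  exact goodB_spec _ (List.all_eq_true.1 h p hp)

theorem CL_eq_KL (l : List ℕ) (h1 : l.Pairwise (· ≥ ·)) (h2 : ∀ x ∈ l, 0 < x)
    (h3 : l.sum = 12) : (CL l univ : ℤ) = evS cS (KL l) := by
  have h4 : ∀ x ∈ l, x ≤ 12 := fun x hx => h3 ▸ List.le_sum_of_mem hx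
  have h5 := chk_sound 13 (full 12) cS 12 12 (W_full 12) good_cS chk_cS l h1 h2 h4 h3
  rw [ev_full 12 le_rfl] at h5
  have h6 : (univ.filter fun v : Fin 12 => v.val < 12) = univ := by
    ext v
    simp
  rw [h6] at h5
  exact h5

/-- the value at a given list -/
def valT : List ℕ → T → ℕ
  | [], t => cnt t 0
  | a :: l, t => valT l (op 12 t a 0)

theorem ev_valT (l : List ℕ) (t : T) (ht : W 12 t) : ev 12 t (CL l) = valT l t := by
  induction l generalizing t with
  | nil =>
    rw [valT]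
    have := ev_ones t ht 0
    simpa using this
  | cons a l ih => rw [valT, ← ih _ (op_spec t 12 le_rfl ht a 0).1, op_CL t ht]

theorem CL_valT (l : List ℕ) : CL l univ = valT l (full 12) := by
  rw [← ev_valT _ _ (W_full 12), ev_full 12 le_rfl]
  have h6 : (univ.filter fun v : Fin 12 => v.val < 12) = univ := by
    ext v
    simp
  rw [h6]

theorem CL_741 : CL [7, 4, 1] univ = 0 := by
  rw [CL_valT]
  decide +kernel

theorem CL_822 : CL [8, 2, 2] univ = 2 := by
  rw [CL_valT]
  decide +kernel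

theorem CL_66 : CL [6, 6] univ = 2 := by
  rw [CL_valT]
  decide +kernel

end Run7.h299.SNP
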