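import Mathlib
import Pool.Agent.Run7.h299.SNP.Chk

/-! # Colourings with a given content -/

set_option autoImplicit false

namespace Run7.h299.SNP

open Finset Pool.Agent.R850.FG

theorem CL_swap (a b : ℕ) (l : List ℕ) (H : Finset (Fin 12)) :
    CL (a :: b :: l) H = CL (b :: a :: l) H := by
  simp only [CL]
  rw [Finset.sum_comm' (s' := fun y => (H \ y).powerset.filter fun S => St S ∧ S.card = a)
    (t' := H.powerset.filter fun S => St S ∧ S.card = b)]
  · refine Finset.sum_congr rfl fun x _ => Finset.sum_congr rfl fun y _ => ?_
    rw [sdiff_sdiff_comm]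
  · intro x y
    simp only [mem_filter, mem_powerset, subset_sdiff]
    constructor
    · rintro ⟨⟨h1, h2, h3⟩, ⟨h4, h5⟩, h6, h7⟩
      exact ⟨⟨⟨h1, h5.symm⟩, h2, h3⟩, h4, h6, h7⟩
    · rintro ⟨⟨⟨h1, h5⟩, h2, h3⟩, h4, h6, h7⟩
      exact ⟨⟨h1, h2, h3⟩, ⟨h4, h5.symm⟩, h6, h7⟩

theorem CL_cons_congr (a : ℕ) {l l' : List ℕ} (h : CL l = CL l') : CL (a :: l) = CL (a :: l') := by
  funext H
  rw [CL, CL, h]

theorem CL_perm {l l' : List ℕ} (h : l.Perm l') : CL l = CL l' := by
  induction h with
  | nil => rfl
  | cons a _ ih => exact CL_cons_congr a ih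
  | swap a b l =>
    funext H
    exact CL_swap _ _ _ _
  | trans _ _ ih1 ih2 => rw [ih1, ih2]

theorem CL_zero_cons (l : List ℕ) : CL (0 :: l) = CL l := by
  funext H
  have h := Rm_zero 0 (CL l) H
  rw [← h, Rm, CL]
  refine Finset.sum_congr (Finset.filter_congr fun S _ => ?_) fun _ _ => rfl
  unfold Pm
  simp

theorem CL_filter (l : List ℕ) : CL (l.filter (· ≠ 0)) = CL l := by
  induction l with
  | nil => rfl
  | cons a l ih =>
    by_cases h : a = 0
    · subst h
      rw [CL_zero_cons, ← ih]
      simp
    · rw [List.filter_cons_of_pos (by simpa using h)]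
      exact CL_cons_congr a ih

theorem CL_eq_zero (l : List ℕ) : ∀ H : Finset (Fin 12), l.sum ≠ H.card → CL l H = 0 := by
  induction l with
  | nil =>
    intro H h
    rw [CL]
    refine if_neg ?_
    rintro rfl
    exact h rfl
  | cons a l ih =>
    intro H h
    rw [CL]
    refine Finset.sum_eq_zero fun S hS => ih _ ?_
    rw [mem_filter, mem_powerset] at hS
    rw [List.sum_cons] at h
    have h1 := card_sdiff_add_card_eq_card hS.1
    intro h2
    apply h
    rw [h2, ← hS.2.2]
    omega

theorem cS_sum : ∀ p ∈ cS, p.1.sum = 12 := by decide +kernel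

theorem evS_KL_zero (l : List ℕ) (h : l.sum ≠ 12) : evS cS (KL l) = 0 := by
  unfold evS
  refine List.sum_eq_zero fun x hx => ?_
  rw [List.mem_map] at hx
  obtain ⟨p, hp, rfl⟩ := hx
  rw [KL_eq_zero, mul_zero]
  rw [card_dg (good_cS p hp).1, cS_sum p hp]
  exact h

theorem CL_eq (l : List ℕ) : (CL l univ : ℤ) = evS cS (KL l) := by
  set l' := (l.filter (· ≠ 0)).insertionSort (· ≥ ·) with hl'
  have hp : l'.Perm (l.filter (· ≠ 0)) := List.perm_insertionSort _ _
  have h1 : CL l = CL l' := by rw [CL_perm hp, CL_filter]
  have h2 : KL l = KL l' := by rw [KL_perm hp, KL_filter]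
  rw [h1, h2]
  by_cases h3 : l'.sum = 12
  · refine CL_eq_KL l' ?_ ?_ h3
    · exact List.pairwise_insertionSort _ _
    · intro x hx
      have := hp.mem_iff.1 hx
      rw [List.mem_filter] at this
      have h4 : x ≠ 0 := by simpa using this.2
      omega
  · rw [evS_KL_zero l' h3, CL_eq_zero l' _ (by simpa using h3)]
    rfl

/-- the colourings of `H` with the colours `0, …, N - 1` and with content `m`, extended by `0` -/
def colF (N : ℕ) (H : Finset (Fin 12)) (m : ℕ → ℕ) : Finset (Fin 12 → ℕ) :=
  (Fintype.piFinset fun v => range (if v ∈ H then N else 1)).filter fun κ =>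
    (∀ u ∈ H, ∀ v ∈ H, Ad u v → κ u ≠ κ v) ∧
      ∀ i ∈ range N, (H.filter fun v => κ v = i).card = m i

theorem mem_colF {N : ℕ} {H : Finset (Fin 12)} {m : ℕ → ℕ} {κ : Fin 12 → ℕ} :
    κ ∈ colF N H m ↔ (∀ v ∈ H, κ v < N) ∧ (∀ v, v ∉ H → κ v = 0) ∧
      (∀ u ∈ H, ∀ v ∈ H, Ad u v → κ u ≠ κ v) ∧
      ∀ i < N, (H.filter fun v => κ v = i).card = m i := by
  rw [colF, mem_filter, Fintype.mem_piFinset]
  simp only [mem_range]
  constructor
  · rintro ⟨h1, h2, h3⟩
    refine ⟨fun v hv => ?_, fun v hv => ?_, h2, h3⟩
    · have := h1 v
      rwa [if_pos hv] at this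
    · have := h1 v
      rw [if_neg hv] at this
      omega
  · rintro ⟨h1, h2, h3, h4⟩
    refine ⟨fun v => ?_, h3, h4⟩
    split_ifs with hv
    · exact h1 v hv
    · rw [h2 v hv]
      omega

theorem card_colF (m : ℕ → ℕ) (N : ℕ) : ∀ H : Finset (Fin 12),
    (colF N H m).card = CL ((List.range N).reverse.map m) H := by
  induction N with
  | zero =>
    intro H
    rw [List.range_zero, List.reverse_nil, List.map_nil, CL]
    split_ifs with h
    · subst h
      rw [card_eq_one]
      refine ⟨fun _ => 0, ?_⟩
      ext κ
      rw [mem_colF, mem_singleton]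
      constructor
      · rintro ⟨_, h2, _⟩
        funext v
        exact h2 v (notMem_empty v)
      · rintro rfl
        simp
    · rw [card_eq_zero, eq_empty_iff_forall_notMem]
      intro κ hκ
      rw [mem_colF] at hκ
      obtain ⟨v, hv⟩ := nonempty_iff_ne_empty.2 h
      have := hκ.1 v hv
      omega
  | succ N ih =>
    intro H
    rw [List.range_succ, List.reverse_append, List.reverse_singleton, List.singleton_append,
      List.map_cons, CL]
    rw [Finset.card_eq_sum_card_fiberwise (f := fun κ => H.filter fun v => κ v = N)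
      (t := H.powerset.filter fun S => St S ∧ S.card = m N)]
    · refine Finset.sum_congr rfl fun S hS => ?_
      rw [mem_filter, mem_powerset] at hS
      obtain ⟨hS1, hS2, hS3⟩ := hS
      rw [← ih]
      refine Finset.card_bij' (fun κ _ => fun v => if v ∈ S then 0 else κ v)
        (fun κ _ => fun v => if v ∈ S then N else κ v) ?_ ?_ ?_ ?_
      · intro κ hκ
        rw [mem_filter, mem_colF] at hκ
        obtain ⟨⟨h1, h2, h3, h4⟩, h5⟩ := hκ
        rw [mem_colF]
        have hmem : ∀ v ∈ H, (v ∈ S ↔ κ v = N) := by
          intro v hv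
          rw [← h5, mem_filter]
          exact ⟨fun h => h.2, fun h => ⟨hv, h⟩⟩
        refine ⟨?_, ?_, ?_, ?_⟩
        · intro v hv
          rw [mem_sdiff] at hv
          rw [if_neg hv.2]
          have := h1 v hv.1
          have : κ v ≠ N := fun h => hv.2 ((hmem v hv.1).2 h)
          omega
        · intro v hv
          split_ifs with h
          · rfl
          · exact h2 v fun h' => hv (mem_sdiff.2 ⟨h', h⟩)
        · intro u hu v hv huv
          rw [mem_sdiff] at hu hv
          rw [if_neg hu.2, if_neg hv.2]
          exact h3 u hu.1 v hv.1 huv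
        · intro i hi
          rw [← h4 i (by omega)]
          congr 1
          ext v
          rw [mem_filter, mem_filter, mem_sdiff]
          constructor
          · rintro ⟨⟨h6, h7⟩, h8⟩
            rw [if_neg h7] at h8
            exact ⟨h6, h8⟩
          · rintro ⟨h6, h7⟩
            have h8 : v ∉ S := fun h => by
              rw [hmem v h6] at h
              omega
            rw [if_neg h8]
            exact ⟨⟨h6, h8⟩, h7⟩
      · intro κ hκ
        rw [mem_colF] at hκ
        obtain ⟨h1, h2, h3, h4⟩ := hκ
        have hN : ∀ v, v ∉ S → v ∈ H → κ v < N := fun v hv hv' => h1 v (mem_sdiff.2 ⟨hv', hv⟩)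
        rw [mem_filter, mem_colF]
        refine ⟨⟨?_, ?_, ?_, ?_⟩, ?_⟩
        · intro v hv
          split_ifs with h
          · omega
          · have := hN v h hv
            omega
        · intro v hv
          rw [if_neg fun h => hv (hS1 h)]
          exact h2 v fun h => hv (mem_sdiff.1 h).1
        · intro u hu v hv huv
          by_cases hu' : u ∈ S
          · by_cases hv' : v ∈ S
            · exact absurd huv (hS2 u hu' v hv')
            · rw [if_pos hu', if_neg hv']
              have := hN v hv' hv
              omega
          · by_cases hv' : v ∈ S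
            · rw [if_neg hu', if_pos hv']
              have := hN u hu' hu
              omega
            · rw [if_neg hu', if_neg hv']
              exact h3 u (mem_sdiff.2 ⟨hu, hu'⟩) v (mem_sdiff.2 ⟨hv, hv'⟩) huv
        · intro i hi
          by_cases hiN : i = N
          · rw [hiN, ← hS3]
            congr 1
            ext v
            rw [mem_filter]
            constructor
            · rintro ⟨h6, h7⟩
              by_contra h8
              rw [if_neg h8] at h7
              have := hN v h8 h6
              omega
            · intro h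
              rw [if_pos h]
              exact ⟨hS1 h, rfl⟩
          · rw [← h4 i (by omega)]
            congr 1
            ext v
            rw [mem_filter, mem_filter, mem_sdiff]
            constructor
            · rintro ⟨h6, h7⟩
              split_ifs at h7 with h8
              · omega
              · exact ⟨⟨h6, h8⟩, h7⟩
            · rintro ⟨⟨h6, h7⟩, h8⟩
              rw [if_neg h7]
              exact ⟨h6, h8⟩
        · ext v
          rw [mem_filter]
          simp only
          constructor
          · rintro ⟨h6, h7⟩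
            by_contra h8
            rw [if_neg h8] at h7
            have := hN v h8 h6
            omega
          · intro h
            rw [if_pos h]
            exact ⟨hS1 h, rfl⟩
      · intro κ hκ
        rw [mem_filter, mem_colF] at hκ
        obtain ⟨⟨h1, h2, h3, h4⟩, h5⟩ := hκ
        funext v
        simp only
        split_ifs with h
        · rw [← h5, mem_filter] at h
          exact h.2.symm
        · rfl
      · intro κ hκ
        rw [mem_colF] at hκ
        obtain ⟨h1, h2, h3, h4⟩ := hκ
        funext v
        simp only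
        split_ifs with h
        · exact (h2 v fun h' => (mem_sdiff.1 h').2 h).symm
        · rfl
    · intro κ hκ
      rw [mem_coe, mem_colF] at hκ
      obtain ⟨h1, h2, h3, h4⟩ := hκ
      rw [mem_coe, mem_filter, mem_powerset]
      refine ⟨filter_subset _ _, ?_, h4 N (by omega)⟩
      intro u hu v hv huv
      rw [mem_filter] at hu hv
      exact h3 u hu.1 v hv.1 huv (hu.2.trans hv.2.symm)

end Run7.h299.SNP
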