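import Mathlib
import Pool.Agent.Run7.h299.SNP.Col

/-! # The chromatic polynomial of the graph, and Schur polynomials -/

set_option autoImplicit false

namespace Run7.h299.SNP

open Finset Pool.Agent.R850.FG

/-- the graph: the bipartite graph of the Ferrers shape `(6, 5, 2, 2, 2, 2)` -/
def Gr : SimpleGraph (Fin 12) where
  Adj := Ad
  symm := ⟨fun u v => Ad_symm u v⟩
  loopless := ⟨Ad_irrefl⟩

theorem prod_X {ι : Type*} (s : Finset ι) (f : ι → ℕ) :
    (∏ i ∈ s, (MvPolynomial.X (f i) : MvPolynomial ℕ ℤ)) =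
      MvPolynomial.monomial (∑ i ∈ s, Finsupp.single (f i) 1) 1 := by
  rw [MvPolynomial.monomial_sum_one]
  rfl

theorem sum_single_apply {ι : Type*} [DecidableEq ι] (s : Finset ι) (f : ι → ℕ) (x : ℕ) :
    (∑ i ∈ s, Finsupp.single (f i) 1 : ℕ →₀ ℕ) x = (s.filter fun i => f i = x).card := by
  classical
  rw [Finsupp.finsetSum_apply, Finset.card_filter]
  refine Finset.sum_congr rfl fun c _ => ?_
  rw [Finsupp.single_apply]

theorem card_col (k : ℕ) (α : ℕ →₀ ℕ) [Fintype {κ : Fin 12 → Fin k // ∀ u v, Gr.Adj u v → κ u ≠ κ v}]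
    (h : ∀ x, k ≤ x → α x = 0) :
    ((univ : Finset {κ : Fin 12 → Fin k // ∀ u v, Gr.Adj u v → κ u ≠ κ v}).filter fun κ =>
      (∑ v, Finsupp.single (κ.1 v : ℕ) 1) = α).card = CL ((List.range k).reverse.map α) univ := by
  rw [← card_colF]
  refine Finset.card_bij (fun κ _ => fun v => (κ.1 v : ℕ)) ?_ ?_ ?_
  · intro κ hκ
    rw [mem_filter] at hκ
    rw [mem_colF]
    refine ⟨fun v _ => (κ.1 v).2, fun v hv => absurd (mem_univ v) hv, ?_, ?_⟩
    · intro u _ v _ huv h
      exact κ.2 u v huv (Fin.ext h)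
    · intro i _
      rw [← hκ.2, sum_single_apply]
  · intro κ _ κ' _ hκ
    apply Subtype.ext
    funext v
    exact Fin.ext (congrFun hκ v)
  · intro κ hκ
    rw [mem_colF] at hκ
    obtain ⟨h1, _, h3, h4⟩ := hκ
    refine ⟨⟨fun v => ⟨κ v, h1 v (mem_univ v)⟩, ?_⟩, ?_, rfl⟩
    · intro u v huv h5
      exact h3 u (mem_univ u) v (mem_univ v) huv (Fin.mk.inj h5)
    · rw [mem_filter]
      refine ⟨mem_univ _, ?_⟩
      ext x
      rw [sum_single_apply]
      by_cases hx : x < k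
      · exact h4 x hx
      · rw [h x (not_lt.1 hx), card_eq_zero, filter_eq_empty_iff]
        intro v _ h5
        have := h1 v (mem_univ v)
        simp only at h5
        omega

theorem coeff_chrom (k : ℕ) (α : ℕ →₀ ℕ) :
    MvPolynomial.coeff α (∑ᶠ κ : {κ : Fin 12 → Fin k // ∀ u v, Gr.Adj u v → κ u ≠ κ v},
      ∏ v, (MvPolynomial.X ((κ.1 v : ℕ)) : MvPolynomial ℕ ℤ)) =
        open Classical in
        if (∀ x, k ≤ x → α x = 0) then (CL ((List.range k).reverse.map α) univ : ℤ) else 0 := by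
  classical
  rw [finsum_eq_sum_of_fintype, MvPolynomial.coeff_sum]
  simp_rw [prod_X, MvPolynomial.coeff_monomial]
  rw [Finset.sum_boole]
  split_ifs with h
  · rw [card_col k α h]
  · rw [Nat.cast_eq_zero, card_eq_zero, filter_eq_empty_iff]
    intro κ _ hκ
    apply h
    intro x hx
    rw [← hκ, sum_single_apply, card_eq_zero, filter_eq_empty_iff]
    intro v _ h1
    have := (κ.1 v).2
    omega

theorem finite_tab (k : ℕ) (μ : YoungDiagram) :
    Finite {T : SemistandardYoungTableau μ // ∀ p ∈ μ.cells, T p.1 p.2 < k} := by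
  refine Finite.of_injective (β := μ.cells → Fin k) (fun T p => ⟨T.1 p.1.1 p.1.2, T.2 p.1 p.2⟩) ?_
  intro T T' h
  apply Subtype.ext
  ext i j
  by_cases hc : (i, j) ∈ μ
  · exact Fin.mk.inj (congrFun h ⟨(i, j), hc⟩)
  · rw [T.1.zeros hc, T'.1.zeros hc]

theorem coeff_schurPol (k : ℕ) (μ : YoungDiagram) (α : ℕ →₀ ℕ) :
    MvPolynomial.coeff α (∑ᶠ T : {T : SemistandardYoungTableau μ //
        ∀ p ∈ μ.cells, T p.1 p.2 < k},
      ∏ p ∈ μ.cells, (MvPolynomial.X (T.1 p.1 p.2) : MvPolynomial ℕ ℤ)) =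
        open Classical in
        if (∀ x, k ≤ x → α x = 0) then KL ((List.range k).reverse.map α) μ else 0 := by
  classical
  have := finite_tab k μ
  let _ := Fintype.ofFinite {T : SemistandardYoungTableau μ // ∀ p ∈ μ.cells, T p.1 p.2 < k}
  rw [finsum_eq_sum_of_fintype, MvPolynomial.coeff_sum]
  simp_rw [prod_X, MvPolynomial.coeff_monomial]
  rw [Finset.sum_boole]
  split_ifs with h
  · rw [← KK_eq_KL, ← (card_tab k μ α h).2, ← Fintype.card_subtype, ← Nat.card_eq_fintype_card]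
    congr 1
    refine Nat.card_congr
      { toFun := fun T => ⟨T.1.1, T.2⟩
        invFun := fun T => ⟨⟨T.1, fun p hp => ctab_lt T.1 α T.2 k h hp⟩, T.2⟩
        left_inv := fun T => rfl
        right_inv := fun T => rfl }
  · rw [Nat.cast_eq_zero, card_eq_zero, filter_eq_empty_iff]
    intro T _ hT
    apply h
    intro x hx
    rw [← hT, sum_single_apply, card_eq_zero, filter_eq_empty_iff]
    intro p hp h1
    have := T.2 p hp
    omega

/-- the coefficients of the Schur expansion -/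
noncomputable def cF : YoungDiagram →₀ ℕ := (cS.map fun p => Finsupp.single (dg p.1) p.2).sum

theorem sum_list {M : Type} [AddCommMonoid M] (L : PV) (F : YoungDiagram → M) :
    ((L.map fun p => Finsupp.single (dg p.1) p.2).sum : YoungDiagram →₀ ℕ).sum
      (fun μ a => a • F μ) = (L.map fun p => p.2 • F (dg p.1)).sum := by
  classical
  induction L with
  | nil => simp
  | cons p L ih =>
    rw [List.map_cons, List.sum_cons, Finsupp.sum_add_index', ih, List.map_cons, List.sum_cons,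
      Finsupp.sum_single_index]
    · exact zero_smul _ _
    · intro μ
      exact zero_smul _ _
    · intro μ a b
      exact add_smul _ _ _

theorem coeff_list (L : PV) (F : YoungDiagram → MvPolynomial ℕ ℤ) (α : ℕ →₀ ℕ) :
    MvPolynomial.coeff α (L.map fun p => p.2 • F (dg p.1)).sum =
      evS L fun μ => MvPolynomial.coeff α (F μ) := by
  induction L with
  | nil => simp [evS]
  | cons p L ih =>
    rw [List.map_cons, List.sum_cons, MvPolynomial.coeff_add, ih, evS_cons, MvPolynomial.coeff_smul,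
      nsmul_eq_mul]

theorem schur_expansion (k : ℕ) :
    (∑ᶠ κ : {κ : Fin 12 → Fin k // ∀ u v, Gr.Adj u v → κ u ≠ κ v},
        ∏ v, (MvPolynomial.X ((κ.1 v : ℕ)) : MvPolynomial ℕ ℤ)) =
      cF.sum (fun μ a => a • ∑ᶠ T : {T : SemistandardYoungTableau μ //
          ∀ p ∈ μ.cells, T p.1 p.2 < k},
        ∏ p ∈ μ.cells, (MvPolynomial.X (T.1 p.1 p.2) : MvPolynomial ℕ ℤ)) := by
  classical
  rw [cF, sum_list]
  ext α
  rw [coeff_chrom, coeff_list cS fun μ => ∑ᶠ T : {T : SemistandardYoungTableau μ //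
          ∀ p ∈ μ.cells, T p.1 p.2 < k},
        ∏ p ∈ μ.cells, (MvPolynomial.X (T.1 p.1 p.2) : MvPolynomial ℕ ℤ)]
  simp_rw [coeff_schurPol]
  by_cases h : ∀ x, k ≤ x → α x = 0
  · simp only [if_pos h]
    exact CL_eq _
  · simp only [if_neg h]
    unfold evS
    symm
    refine List.sum_eq_zero fun x hx => ?_
    rw [List.mem_map] at hx
    obtain ⟨p, _, rfl⟩ := hx
    exact mul_zero _

/-- an exponent in three variables -/
noncomputable def ex (a b c : ℕ) : ℕ →₀ ℕ :=
  Finsupp.single 0 a + Finsupp.single 1 b + Finsupp.single 2 c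

theorem ex_apply (a b c : ℕ) (i : ℕ) : ex a b c i = [a, b, c].getD i 0 := by
  unfold ex
  rw [Finsupp.add_apply, Finsupp.add_apply, Finsupp.single_apply, Finsupp.single_apply,
    Finsupp.single_apply]
  rcases i with _ | _ | _ | i <;> simp

theorem coeff_three (a b c : ℕ) :
    MvPolynomial.coeff (ex a b c) (∑ᶠ κ : {κ : Fin 12 → Fin 3 // ∀ u v, Gr.Adj u v → κ u ≠ κ v},
      ∏ v, (MvPolynomial.X ((κ.1 v : ℕ)) : MvPolynomial ℕ ℤ)) = (CL [c, b, a] univ : ℤ) := by
  classical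
  rw [coeff_chrom, if_pos]
  · have h : (List.range 3).reverse.map (ex a b c) = [c, b, a] := by
      have h1 : (List.range 3).reverse = [2, 1, 0] := rfl
      rw [h1]
      simp [ex_apply]
    rw [h]
  · intro x hx
    rw [ex_apply]
    exact List.getD_eq_default _ _ (by simpa using hx)

theorem not_snp :
    (fun i : ℕ => (ex 7 4 1 i : ℝ)) ∈ convexHull ℝ
      ((fun β : ℕ →₀ ℕ => (fun i : ℕ => (β i : ℝ))) ''
        ((∑ᶠ κ : {κ : Fin 12 → Fin 3 // ∀ u v, Gr.Adj u v → κ u ≠ κ v},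
          ∏ v, (MvPolynomial.X ((κ.1 v : ℕ)) : MvPolynomial ℕ ℤ)).support : Set (ℕ →₀ ℕ))) ∧
    ex 7 4 1 ∉ (∑ᶠ κ : {κ : Fin 12 → Fin 3 // ∀ u v, Gr.Adj u v → κ u ≠ κ v},
        ∏ v, (MvPolynomial.X ((κ.1 v : ℕ)) : MvPolynomial ℕ ℤ)).support := by
  constructor
  · have h1 : ex 8 2 2 ∈ (∑ᶠ κ : {κ : Fin 12 → Fin 3 // ∀ u v, Gr.Adj u v → κ u ≠ κ v},
        ∏ v, (MvPolynomial.X ((κ.1 v : ℕ)) : MvPolynomial ℕ ℤ)).support := by
      rw [MvPolynomial.mem_support_iff, coeff_three, CL_perm (l' := [8, 2, 2]) (by decide), CL_822]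
      norm_num
    have h2 : ex 6 6 0 ∈ (∑ᶠ κ : {κ : Fin 12 → Fin 3 // ∀ u v, Gr.Adj u v → κ u ≠ κ v},
        ∏ v, (MvPolynomial.X ((κ.1 v : ℕ)) : MvPolynomial ℕ ℤ)).support := by
      rw [MvPolynomial.mem_support_iff, coeff_three, CL_zero_cons, CL_66]
      norm_num
    have h3 := segment_subset_convexHull (𝕜 := ℝ)
      (Set.mem_image_of_mem (fun β : ℕ →₀ ℕ => (fun i : ℕ => (β i : ℝ))) h1)
      (Set.mem_image_of_mem (fun β : ℕ →₀ ℕ => (fun i : ℕ => (β i : ℝ))) h2)
    apply h3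
    refine ⟨1 / 2, 1 / 2, by norm_num, by norm_num, by norm_num, ?_⟩
    funext i
    simp only [Pi.add_apply, Pi.smul_apply, smul_eq_mul, ex_apply]
    rcases i with _ | _ | _ | i <;> norm_num
  · rw [MvPolynomial.notMem_support_iff, coeff_three, CL_perm (l' := [7, 4, 1]) (by decide), CL_741]
    rfl

end Run7.h299.SNP
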